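import Pool.Agent.helper54.TS.Spec

set_option autoImplicit false

open Polynomial Finset

noncomputable section

namespace Pool.Agent.TS

open Pool.Agent.PSA (IsSalem Indep Fac)

theorem FAV_geom (ζ : ℂ) (h1 : ‖ζ‖ = 1) (hne : ζ ≠ 1) (a L : ℕ) :
    ‖∑ n ∈ range L, ζ ^ (a + n)‖ ≤ 2 / ‖ζ - 1‖ := by
  have hpos : 0 < ‖ζ - 1‖ := norm_pos_iff.2 (sub_ne_zero.2 hne)
  have e1 : ∑ n ∈ range L, ζ ^ (a + n) = ζ ^ a * ∑ n ∈ range L, ζ ^ n := by
    rw [mul_sum]
    exact sum_congr rfl fun n _ => pow_add _ _ _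
  rw [e1, geom_sum_eq hne, norm_mul, norm_pow, h1, one_pow, one_mul, norm_div]
  apply div_le_div_of_nonneg_right _ hpos.le
  calc ‖ζ ^ L - 1‖ ≤ ‖ζ ^ L‖ + ‖(1 : ℂ)‖ := norm_sub_le _ _
    _ = 2 := by rw [norm_pow, h1, one_pow, norm_one]; norm_num

theorem FAV_bd {I : Type} [Fintype I] (ζ : I → ℂ) (h1 : ∀ i, ‖ζ i‖ = 1) (hne : ∀ i, ζ i ≠ 1) :
    ∃ C : ℝ, 0 ≤ C ∧ ∀ i a L, ‖∑ n ∈ range L, ζ i ^ (a + n)‖ ≤ C := by
  refine ⟨∑ i, 2 / ‖ζ i - 1‖, sum_nonneg fun i _ => by positivity, fun i a L => ?_⟩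
  refine (FAV_geom (ζ i) (h1 i) (hne i) a L).trans ?_
  exact single_le_sum (f := fun i => 2 / ‖ζ i - 1‖) (fun i _ => by positivity) (mem_univ i)

theorem FAV_prod {k : ℕ} (w : Fin k → Circle) (j : Fin k) :
    ∏ i, w i ^ (Pi.single j 1 : Fin k → ℤ) i = w j := by
  rw [Fintype.prod_eq_single j]
  · simp
  · intro i hi
    simp [Pi.single_eq_of_ne hi]

theorem FAV_one {k : ℕ} (w : Fin k → Circle) (hw : Indep w) (j : Fin k) : (w j : ℂ) ≠ 1 := by
  intro h
  have h1 : w j = 1 := by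
    apply Subtype.ext
    simpa using h
  have h2 := hw (Pi.single j 1) (by rw [FAV_prod, h1])
  have h3 := congrFun h2 j
  simp at h3

theorem FAV_mul {k : ℕ} (w : Fin k → Circle) (hw : Indep w) (j l : Fin k) : (w j : ℂ) * w l ≠ 1 := by
  intro h
  have h1 : w j * w l = 1 := by
    apply Subtype.ext
    simpa using h
  have h2 := hw (Pi.single j 1 + Pi.single l 1) (by
    have : ∀ i, w i ^ ((Pi.single j 1 + Pi.single l 1 : Fin k → ℤ) i) =
        w i ^ (Pi.single j 1 : Fin k → ℤ) i * w i ^ (Pi.single l 1 : Fin k → ℤ) i := by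
      intro i
      rw [Pi.add_apply, zpow_add]
    rw [prod_congr rfl fun i _ => this i, prod_mul_distrib, FAV_prod, FAV_prod, h1])
  have h3 := congrFun h2 j
  have h4 : (0 : ℤ) ≤ (Pi.single l 1 : Fin k → ℤ) j := by
    rcases eq_or_ne j l with rfl | hne
    · simp
    · simp [Pi.single_eq_of_ne hne]
  simp only [Pi.add_apply, Pi.single_eq_same, Pi.zero_apply] at h3
  omega

theorem FAV_div {k : ℕ} (w : Fin k → Circle) (hw : Indep w) (j l : Fin k) (hjl : j ≠ l) :
    (w j : ℂ) * (starRingEnd ℂ) (w l : ℂ) ≠ 1 := by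
  intro h
  have h1 : w j * (w l)⁻¹ = 1 := by
    apply Subtype.ext
    rw [Circle.coe_mul, Circle.coe_inv_eq_conj]
    simpa using h
  have h2 := hw (Pi.single j 1 - Pi.single l 1) (by
    have : ∀ i, w i ^ ((Pi.single j 1 - Pi.single l 1 : Fin k → ℤ) i) =
        w i ^ (Pi.single j 1 : Fin k → ℤ) i * (w i ^ (Pi.single l 1 : Fin k → ℤ) i)⁻¹ := by
      intro i
      rw [Pi.sub_apply, zpow_sub]
    rw [prod_congr rfl fun i _ => this i, prod_mul_distrib, prod_inv_distrib, FAV_prod, FAV_prod, h1])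
  have h3 := congrFun h2 j
  simp [Pi.single_eq_of_ne hjl] at h3

theorem FAV_main (k : ℕ) (w : Fin k → Circle) (C : ℝ) (hC : 0 ≤ C)
    (h1 : ∀ j a L, ‖∑ n ∈ range L, (w j : ℂ) ^ (a + n)‖ ≤ C)
    (h2 : ∀ j l a L, ‖∑ n ∈ range L, ((w j : ℂ) * w l) ^ (a + n)‖ ≤ C)
    (h3 : ∀ j l a L, j ≠ l → ‖∑ n ∈ range L, ((w j : ℂ) * (starRingEnd ℂ) (w l : ℂ)) ^ (a + n)‖ ≤ C)
    (L : ℕ) (hL : 8 * (k : ℝ) ^ 2 * C < L) (x : Fin k → ℂ) (a : ℕ) :
    ∃ i, i < L ∧ 1 / (8 * ((k : ℝ) + 1)) * Real.sqrt (∑ j, ‖x j‖ ^ 2) ≤ (∑ j, x j * (w j : ℂ) ^ (a + i)).re := by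
  set N := Real.sqrt (∑ j, ‖x j‖ ^ 2) with hN
  have hsum0 : 0 ≤ ∑ j, ‖x j‖ ^ 2 := sum_nonneg fun j _ => by positivity
  have hN0 : 0 ≤ N := Real.sqrt_nonneg _
  have hNsq : N ^ 2 = ∑ j, ‖x j‖ ^ 2 := Real.sq_sqrt hsum0
  have hxN : ∀ j, ‖x j‖ ≤ N := by
    intro j
    apply Real.le_sqrt_of_sq_le
    exact single_le_sum (f := fun j => ‖x j‖ ^ 2) (fun j _ => by positivity) (mem_univ j)
  have hk0 : (0 : ℝ) ≤ k := Nat.cast_nonneg k
  have hLpos : 0 < L := by
    have : (0 : ℝ) < L := lt_of_le_of_lt (by positivity) hL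
    exact_mod_cast this
  by_contra hcon
  push Not at hcon
  set S : ℕ → ℂ := fun n => ∑ j, x j * (w j : ℂ) ^ n with hS
  have hcon' : ∀ i, i < L → (S (a + i)).re < 1 / (8 * ((k : ℝ) + 1)) * N := fun i hi => hcon i hi
  -- N > 0
  have hNpos : 0 < N := by
    rcases hN0.lt_or_eq with h | h
    · exact h
    · exfalso
      have hx0 : ∀ j, x j = 0 := by
        intro j
        have := hxN j
        rw [← h] at this
        exact norm_eq_zero.1 (le_antisymm this (norm_nonneg _))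
      have := hcon' 0 hLpos
      simp only [hS] at this
      rw [← h] at this
      simp [hx0] at this
  -- (1)
  have e1 : |∑ i ∈ range L, (S (a + i)).re| ≤ k * C * N := by
    have e : ∑ i ∈ range L, (S (a + i)).re = (∑ j, x j * ∑ i ∈ range L, (w j : ℂ) ^ (a + i)).re := by
      have : ∑ j, x j * ∑ i ∈ range L, (w j : ℂ) ^ (a + i) = ∑ i ∈ range L, S (a + i) := by
        simp only [hS, mul_sum]
        rw [sum_comm]
      rw [this, Complex.re_sum]
    rw [e]
    refine (Complex.abs_re_le_norm _).trans ?_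
    refine (norm_sum_le _ _).trans ?_
    calc ∑ j, ‖x j * ∑ i ∈ range L, (w j : ℂ) ^ (a + i)‖ ≤ ∑ _j : Fin k, N * C := by
          apply sum_le_sum
          intro j _
          rw [norm_mul]
          exact mul_le_mul (hxN j) (h1 j a L) (norm_nonneg _) hN0
      _ = k * C * N := by
          rw [sum_const, card_univ, Fintype.card_fin, nsmul_eq_mul]; ring
  -- (2)
  have e2 : (L : ℝ) * N ^ 2 - k ^ 2 * C * N ^ 2 ≤ ∑ i ∈ range L, ‖S (a + i)‖ ^ 2 := by
    have e : ∑ i ∈ range L, ‖S (a + i)‖ ^ 2 =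
        ∑ j, ∑ l, (x j * (starRingEnd ℂ) (x l) *
          ∑ i ∈ range L, ((w j : ℂ) * (starRingEnd ℂ) (w l : ℂ)) ^ (a + i)).re := by
      have e' : ∀ n, ‖S n‖ ^ 2 = ∑ j, ∑ l, (x j * (starRingEnd ℂ) (x l) *
          ((w j : ℂ) * (starRingEnd ℂ) (w l : ℂ)) ^ n).re := by
        intro n
        have h : ((‖S n‖ ^ 2 : ℝ) : ℂ) = S n * (starRingEnd ℂ) (S n) := by
          rw [Complex.mul_conj, Complex.normSq_eq_norm_sq]
        have h' : ‖S n‖ ^ 2 = (S n * (starRingEnd ℂ) (S n)).re := by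
          rw [← h, Complex.ofReal_re]
        rw [h']
        simp only [hS]
        rw [map_sum, sum_mul_sum, Complex.re_sum]
        refine sum_congr rfl fun j _ => ?_
        rw [Complex.re_sum]
        refine sum_congr rfl fun l _ => ?_
        rw [map_mul, map_pow, mul_pow]
        congr 1
        ring
      rw [sum_congr rfl fun i _ => e' (a + i), sum_comm]
      refine sum_congr rfl fun j _ => ?_
      rw [sum_comm]
      refine sum_congr rfl fun l _ => ?_
      rw [mul_sum, Complex.re_sum]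
    rw [e]
    have e3 : ∀ j l, (if j = l then (L : ℝ) * ‖x j‖ ^ 2 else 0) - C * N ^ 2 ≤
        (x j * (starRingEnd ℂ) (x l) *
          ∑ i ∈ range L, ((w j : ℂ) * (starRingEnd ℂ) (w l : ℂ)) ^ (a + i)).re := by
      intro j l
      split_ifs with hjl
      · subst hjl
        have hw1 : (w j : ℂ) * (starRingEnd ℂ) (w j : ℂ) = 1 := by
          rw [Complex.mul_conj, Complex.normSq_eq_norm_sq, Circle.norm_coe]
          norm_num
        rw [hw1]
        simp only [one_pow, sum_const, card_range, nsmul_eq_mul, mul_one]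
        rw [Complex.mul_conj, Complex.normSq_eq_norm_sq]
        have : (((‖x j‖ ^ 2 : ℝ) : ℂ) * (L : ℂ)).re = ‖x j‖ ^ 2 * L := by
          rw [Complex.re_ofReal_mul, Complex.natCast_re]
        rw [this]
        have : 0 ≤ C * N ^ 2 := by positivity
        nlinarith
      · rw [zero_sub]
        have hb : ‖x j * (starRingEnd ℂ) (x l) *
          ∑ i ∈ range L, ((w j : ℂ) * (starRingEnd ℂ) (w l : ℂ)) ^ (a + i)‖ ≤ C * N ^ 2 := by
          rw [norm_mul, norm_mul, Complex.norm_conj]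
          calc ‖x j‖ * ‖x l‖ * ‖∑ i ∈ range L, ((w j : ℂ) * (starRingEnd ℂ) (w l : ℂ)) ^ (a + i)‖
              ≤ N * N * C := by
                apply mul_le_mul (mul_le_mul (hxN j) (hxN l) (norm_nonneg _) hN0) (h3 j l a L hjl)
                  (norm_nonneg _) (by positivity)
            _ = C * N ^ 2 := by ring
        have := (abs_le.1 (Complex.abs_re_le_norm (x j * (starRingEnd ℂ) (x l) *
          ∑ i ∈ range L, ((w j : ℂ) * (starRingEnd ℂ) (w l : ℂ)) ^ (a + i)))).1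
        linarith
    calc (L : ℝ) * N ^ 2 - k ^ 2 * C * N ^ 2
        = ∑ j : Fin k, ∑ l : Fin k, ((if j = l then (L : ℝ) * ‖x j‖ ^ 2 else 0) - C * N ^ 2) := by
          simp only [sum_sub_distrib, sum_const, card_univ, Fintype.card_fin, nsmul_eq_mul,
            sum_ite_eq, mem_univ, if_true]
          rw [← mul_sum, ← hNsq]
          ring
      _ ≤ _ := sum_le_sum fun j _ => sum_le_sum fun l _ => e3 j l
  -- (3)
  have e3 : |∑ i ∈ range L, (S (a + i) ^ 2).re| ≤ k ^ 2 * C * N ^ 2 := by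
    have e : ∑ i ∈ range L, (S (a + i) ^ 2).re =
        (∑ j, ∑ l, x j * x l * ∑ i ∈ range L, ((w j : ℂ) * w l) ^ (a + i)).re := by
      rw [← Complex.re_sum]
      congr 1
      have e' : ∀ n, S n ^ 2 = ∑ j, ∑ l, x j * x l * ((w j : ℂ) * w l) ^ n := by
        intro n
        rw [sq]
        simp only [hS]
        rw [sum_mul_sum]
        refine sum_congr rfl fun j _ => sum_congr rfl fun l _ => ?_
        rw [mul_pow]
        ring
      rw [sum_congr rfl fun i _ => e' (a + i), sum_comm]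
      refine sum_congr rfl fun j _ => ?_
      rw [sum_comm]
      refine sum_congr rfl fun l _ => ?_
      rw [mul_sum]
    rw [e]
    refine (Complex.abs_re_le_norm _).trans ?_
    refine (norm_sum_le _ _).trans ?_
    calc ∑ j, ‖∑ l, x j * x l * ∑ i ∈ range L, ((w j : ℂ) * w l) ^ (a + i)‖
        ≤ ∑ _j : Fin k, ∑ _l : Fin k, N * N * C := by
          apply sum_le_sum
          intro j _
          refine (norm_sum_le _ _).trans ?_
          apply sum_le_sum
          intro l _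
          rw [norm_mul, norm_mul]
          exact mul_le_mul (mul_le_mul (hxN j) (hxN l) (norm_nonneg _) hN0) (h2 j l a L)
                  (norm_nonneg _) (by positivity)
      _ = k ^ 2 * C * N ^ 2 := by
          simp only [sum_const, card_univ, Fintype.card_fin, nsmul_eq_mul]
          ring
  -- (4)
  have e4 : ∀ n, (S n).re ^ 2 = (‖S n‖ ^ 2 + (S n ^ 2).re) / 2 := by
    intro n
    rw [← Complex.normSq_eq_norm_sq, Complex.normSq_apply, sq (S n), Complex.mul_re]
    ring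
  have e5 : ((L : ℝ) / 2 - k ^ 2 * C) * N ^ 2 ≤ ∑ i ∈ range L, (S (a + i)).re ^ 2 := by
    rw [sum_congr rfl fun i _ => e4 (a + i), ← sum_div, sum_add_distrib]
    have := (abs_le.1 e3).1
    linarith
  -- (5)
  have e6 : ∀ n, |(S n).re| ≤ k * N := by
    intro n
    refine (Complex.abs_re_le_norm _).trans ?_
    refine (norm_sum_le _ _).trans ?_
    calc ∑ j, ‖x j * (w j : ℂ) ^ n‖ ≤ ∑ _j : Fin k, N := by
          apply sum_le_sum
          intro j _
          rw [norm_mul, norm_pow, Circle.norm_coe, one_pow, mul_one]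
          exact hxN j
      _ = k * N := by rw [sum_const, card_univ, Fintype.card_fin, nsmul_eq_mul]
  -- (6)
  set k0 : ℝ := 1 / (8 * ((k : ℝ) + 1)) with hk0def
  have hk0pos : 0 < k0 := by positivity
  have hk0le : 2 * k * k0 ≤ 1 / 4 := by
    rw [hk0def]
    have : 2 * (k : ℝ) * (1 / (8 * ((k : ℝ) + 1))) = (k : ℝ) / (4 * (k + 1)) := by
      field_simp
      ring
    rw [this, div_le_iff₀ (by positivity)]
    linarith
  have e7 : ∀ i, i < L → (S (a + i)).re ^ 2 ≤ k * N * (2 * k0 * N - (S (a + i)).re) := by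
    intro i hi
    have h := hcon' i hi
    have hab : |(S (a + i)).re| ≤ 2 * k0 * N - (S (a + i)).re := by
      have : 0 ≤ k0 * N := by positivity
      rw [abs_le]
      constructor <;> linarith
    rw [← sq_abs, sq]
    exact mul_le_mul (e6 _) hab (abs_nonneg _) (by positivity)
  have e8 : ∑ i ∈ range L, (S (a + i)).re ^ 2 ≤ ((L : ℝ) / 4 + k ^ 2 * C) * N ^ 2 := by
    calc ∑ i ∈ range L, (S (a + i)).re ^ 2 ≤ ∑ i ∈ range L, k * N * (2 * k0 * N - (S (a + i)).re) :=
          sum_le_sum fun i hi => e7 i (mem_range.1 hi)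
      _ = k * N * (2 * k0 * N * L - ∑ i ∈ range L, (S (a + i)).re) := by
          rw [← mul_sum, sum_sub_distrib, sum_const, card_range, nsmul_eq_mul]
          ring
      _ ≤ k * N * (2 * k0 * N * L + k * C * N) := by
          apply mul_le_mul_of_nonneg_left _ (by positivity)
          have := (abs_le.1 e1).1
          linarith
      _ = (2 * k * k0) * (L * N ^ 2) + k ^ 2 * C * N ^ 2 := by ring
      _ ≤ 1 / 4 * (L * N ^ 2) + k ^ 2 * C * N ^ 2 := by
          have : 0 ≤ (L : ℝ) * N ^ 2 := by positivity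
          nlinarith [mul_le_mul_of_nonneg_right hk0le this]
      _ = _ := by ring
  have e9 : ((L : ℝ) / 2 - k ^ 2 * C) * N ^ 2 ≤ ((L : ℝ) / 4 + k ^ 2 * C) * N ^ 2 := e5.trans e8
  have e10 : (L : ℝ) / 2 - k ^ 2 * C ≤ (L : ℝ) / 4 + k ^ 2 * C :=
    le_of_mul_le_mul_right e9 (by positivity)
  linarith

theorem FAV : FAV_stmt := by
  intro k w hw
  obtain ⟨C1, hC1, H1⟩ := FAV_bd (fun j : Fin k => (w j : ℂ)) (fun j => Circle.norm_coe _)
    (fun j => FAV_one w hw j)
  obtain ⟨C2, hC2, H2⟩ := FAV_bd (fun q : Fin k × Fin k => (w q.1 : ℂ) * w q.2)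
    (fun q => by rw [norm_mul, Circle.norm_coe, Circle.norm_coe, mul_one])
    (fun q => FAV_mul w hw q.1 q.2)
  obtain ⟨C3, hC3, H3⟩ := FAV_bd
    (fun q : {q : Fin k × Fin k // q.1 ≠ q.2} => (w q.1.1 : ℂ) * (starRingEnd ℂ) (w q.1.2 : ℂ))
    (fun q => by rw [norm_mul, Complex.norm_conj, Circle.norm_coe, Circle.norm_coe, mul_one])
    (fun q => FAV_div w hw q.1.1 q.1.2 q.2)
  set C := C1 + C2 + C3 with hC
  have hC0 : 0 ≤ C := by positivity
  refine ⟨1 / (8 * ((k : ℝ) + 1)), ⌈8 * (k : ℝ) ^ 2 * C⌉₊, by positivity, fun x h => ?_⟩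
  obtain ⟨i, hi, hle⟩ := FAV_main k w C hC0
    (fun j a L => (H1 j a L).trans (by linarith))
    (fun j l a L => (H2 (j, l) a L).trans (by linarith))
    (fun j l a L hjl => (H3 ⟨(j, l), hjl⟩ a L).trans (by linarith))
    (⌈8 * (k : ℝ) ^ 2 * C⌉₊ + 1)
    (by
      have := Nat.le_ceil (8 * (k : ℝ) ^ 2 * C)
      push_cast
      linarith) x (h + 1)
  refine ⟨h + i, by omega, by omega, ?_⟩
  rw [show h + i + 1 = h + 1 + i from by ring]
  exact hle

end Pool.Agent.TS
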