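import Pool.Agent.helper54.TS.Spec

set_option autoImplicit false

open Polynomial Finset

noncomputable section

namespace Pool.Agent.TS

theorem RNB54_f0 (x : ℝ) (h0 : 0 ≤ x) (h1 : x < 1) : x - (⌊x⌋ : ℝ) = x := by
  rw [Int.floor_eq_zero_iff.2 ⟨h0, h1⟩]
  simp

theorem RNB54_f1 (x : ℝ) (h0 : 1 ≤ x) (h1 : x < 2) : x - (⌊x⌋ : ℝ) = x - 1 := by
  have : ⌊x⌋ = 1 := by
    rw [Int.floor_eq_iff]
    constructor <;> push_cast <;> linarith
  rw [this]
  simp

theorem RNB54_run (κ θ b : ℝ) (hκθ : κ < θ) (hθ : θ < 1) (hκ : 1 / 2 < κ) (r : ℝ) (h0 : 0 ≤ r) (h1 : r ≤ 1) :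
    PX.run [1 / θ, θ / κ, b * κ] r = Int.fract (b * rho κ θ r) := by
  have hκ0 : 0 < κ := by linarith
  have hθ0 : 0 < θ := by linarith
  simp only [PX.run, rho]
  have hlast : ∀ y : ℝ, b * κ * (y / κ) = b * y := by
    intro y
    field_simp
  by_cases hr : θ ≤ r
  · have e1 : 1 / θ * r - (⌊1 / θ * r⌋ : ℝ) = (r - θ) / θ := by
      rw [RNB54_f1]
      · field_simp
      · rw [one_div_mul_eq_div, le_div_iff₀ hθ0]; linarith
      · rw [one_div_mul_eq_div, div_lt_iff₀ hθ0]; linarith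
    have e2 : θ / κ * ((r - θ) / θ) = (r - θ) / κ := by
      field_simp
    rw [e1, e2, RNB54_f0 ((r - θ) / κ) (by apply div_nonneg <;> linarith) (by rw [div_lt_one hκ0]; linarith), hlast]
    rw [if_neg (by linarith), if_neg (by linarith)]
    rfl
  · push Not at hr
    have e1 : 1 / θ * r - (⌊1 / θ * r⌋ : ℝ) = r / θ := by
      rw [RNB54_f0, one_div_mul_eq_div]
      · positivity
      · rw [one_div_mul_eq_div, div_lt_one hθ0]; exact hr
    have e2 : θ / κ * (r / θ) = r / κ := by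
      field_simp
    rw [e1, e2]
    by_cases hr2 : κ ≤ r
    · rw [RNB54_f1 (r / κ) (by rw [le_div_iff₀ hκ0]; linarith) (by rw [div_lt_iff₀ hκ0]; linarith)]
      rw [show r / κ - 1 = (r - κ) / κ by field_simp, hlast, if_neg (by linarith), if_pos hr]
      rfl
    · push Not at hr2
      rw [RNB54_f0 (r / κ) (by positivity) (by rw [div_lt_one hκ0]; exact hr2), hlast, if_pos hr2]
      rfl

theorem RNB54 : RNB_stmt := by
  intro κ θ b ht hk hb
  refine ⟨?_, ?_, ?_⟩
  · intro r h0 h1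
    rcases ht with ⟨rfl, rfl⟩ | ⟨h2, h3⟩
    · simp only [sbl, if_true, PX.run, rho, if_pos h1]
      rfl
    · rw [sbl, if_neg (by linarith)]
      exact RNB54_run κ θ b h2 h3 hk r h0 h1.le
  · intro h
    simp only [sbl, if_pos h, PX.run]
    rfl
  · intro h
    rcases ht with ⟨h2, _⟩ | ⟨h2, h3⟩
    · exact absurd h2 h.ne
    have hκ0 : 0 < κ := by linarith
    have hθ0 : 0 < θ := by linarith
    have hlast : ∀ y : ℝ, b * κ * (y / κ) = b * y := by
      intro y
      field_simp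
    refine ⟨?_, ?_, ?_⟩
    · rw [RNB54_run κ θ b h2 h3 hk 1 zero_le_one le_rfl, rho, if_neg (by linarith), if_neg (by linarith)]
    · simp only [PX.run, mul_one]
      rw [RNB54_f1 (θ / κ) (by rw [le_div_iff₀ hκ0]; linarith) (by rw [div_lt_iff₀ hκ0]; linarith),
        show θ / κ - 1 = (θ - κ) / κ by field_simp, hlast]
      rfl
    · simp only [PX.run, mul_one]
      rfl

end Pool.Agent.TS
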