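import Pool.Agent.helper54.TS.Spec
import Pool.Agent.helper54.TS.FAV
import Pool.Agent.helper53.PSA.REC
import Pool.Agent.helper75.PSA.FAC
import Pool.Agent.helper75.PSA.QQC
import Pool.Agent.helper48.PSA.IND
import Pool.Agent.helper58.PSA.KRO
import Pool.Agent.helper72.PX.CAT
import Pool.Agent.helper77.PX.RC
import Pool.Agent.helper93.PX.Fin
import Pool.Agent.helper96.TS.SFA
import Pool.Agent.helper71.TS.SFB
import Pool.Agent.helper11.TS.ETA
import Pool.Agent.helper82.TS.NNR
import Pool.Agent.helper1.TS.PLN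
import Pool.Agent.helper5.TS.PLA
import Pool.Agent.helper69.TS.INV
import Pool.Agent.helper11.TS.STA
import Pool.Agent.helper26.TS.LIO
import Pool.Agent.helper79.TS.GRO
import Pool.Agent.helper23.TS.CONr
import Pool.Agent.helper9.TS.MCH
import Pool.Agent.helper29.TS.TLR
import Pool.Agent.helper11.TS.PIG
import Pool.Agent.helper78.TS.EVP
import Pool.Agent.helper26.TS.MRN
import Pool.Agent.helper82.TS.SQX
import Pool.Agent.helper5.TS.SQD
import Pool.Agent.helper57.TS.KTH
import Pool.Agent.helper11.TS.CTR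
import Pool.Agent.helper79.TS.CMS
import Pool.Agent.helper23.TS.CMC
import Pool.Agent.helper16.TS.BLK
import Pool.Agent.helper84.TS.ORP
import Pool.Agent.helper34.TS.SAM
import Pool.Agent.helper26.TS.NZR
import Pool.Agent.helper78.TS.GDP
import Pool.Agent.helper41.TS.THR
import Pool.Agent.helper16.TS.SPL
import Pool.Agent.helper85.TS.CRS
import Pool.Agent.helper54.TS.RNB
import Pool.Agent.helper84.TS.PGB
import Pool.Agent.helper16.TS.REF
import Pool.Agent.helper70.TS.DIG

/-!
Assembly of the rows of project ts (MP_2b41e9_nt).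
-/

set_option autoImplicit false

namespace Pool.Agent.TS

open Pool.Agent

theorem ALL_MCH : MCH_stmt := MCH (CON (ETA PSA.KRO) NNR FAV) NNR (PLA PLN) (INV NNR) (STA NNR) (LIO NNR) GRO

theorem ALL_CTR : CTR_stmt := CTR ALL_MCH (MRN PIG) (SQX TLR) (SQD TLR (SQX TLR)) (EVP TLR) KTH

theorem ALL_CRS : CRS_stmt :=
  CRS ALL_CTR (BLK CMS CMC) (NZR ORP) (SPL ORP SAM (GDP ORP) (THR ORP (GDP ORP))) (GDP ORP)

theorem ALL_main : MAIN_stmt :=
  FNL (SFB (SFA (PSA.REC PSA.FAC) (PSA.IND PSA.QQC) PSA.QQC)) ALL_CRS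
    (REF PX.CAT PX.RC RNB54 (PGB PX.RC RNB54)) DIG

end Pool.Agent.TS
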