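import Pool.Agent.helper75.PSA.Spec
import Pool.Agent.helper93.PX.Spec

/-!
# Project ts (MP_2b41e9_nt): three-split theorem

Architect helper54. THEOREM. Let `β` be a Salem number, `b` an alternate base with product `β` and entries in
`ℚ(β)`, `ε > 0`. Replacing suitable entries `b j` (only such that the greedy expansion of 1 of the shift by `j` is not
eventually periodic) by three entries `c, c', b j / (c c')` with `c, c'` in `ℚ(β)`, `1 < c, c' < 1 + ε`, one gets a Parry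
base. Paper: `/team-store/MP_2b41e9_TS_helper54.md` (checked by helper75).

RULES. File `Pool/Agent/<seat>/TS/XX.lean`, `import Pool.Agent.helper54.TS.Spec`, `namespace Pool.Agent.TS`,
`open Polynomial Finset`, `noncomputable section`; auxiliary lemmas prefixed `XX_`; other rows only as
hypotheses (theorem lines in the lock notes). No double quotes, no `convert`, no `congr!`, no `native_decide`.
-/

set_option autoImplicit false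

open Polynomial Finset

noncomputable section

namespace Pool.Agent.TS

open Pool.Agent.PSA (IsSalem Indep Fac)

/-! ## Block A: the field -/

/-- A Salem field: `ι` the embedding with `ι β > 1`, `σ` the one with `σ β = (ι β)⁻¹`, `φ j` those with
`φ j β = w j` on the unit circle (together with their complex conjugates these are all embeddings). -/
structure SF {K : Type} [Field K] (ι : K →+* ℝ) (β : K) (σ : K →+* ℝ) {k : ℕ} (φ : Fin k → K →+* ℂ)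
    (w : Fin k → Circle) : Prop where
  gt : 1 < ι β
  int : IsIntegral ℤ β
  inv : IsIntegral ℤ β⁻¹
  sig : σ β = (ι β)⁻¹
  val : ∀ j, φ j β = (w j : ℂ)
  ind : Indep w
  nrm : ∀ x : K, IsIntegral ℤ x → x ≠ 0 → 1 ≤ |ι x| * |σ x| * ∏ j, ‖φ j x‖ ^ 2
  fin : ∀ B : ℝ, {x : K | IsIntegral ℤ x ∧ |ι x| ≤ B ∧ |σ x| ≤ B ∧ ∀ j, ‖φ j x‖ ≤ B}.Finite
  den : ∀ S : Finset K, ∃ N : ℕ, 0 < N ∧ ∀ x ∈ S, IsIntegral ℤ ((N : K) * x)

/-- The element `β` of the field `ℚ(β)`. -/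
def gen (β : ℝ) : IntermediateField.adjoin ℚ ({β} : Set ℝ) :=
  ⟨β, IntermediateField.mem_adjoin_simple_self ℚ β⟩

/-- The inclusion of `ℚ(β)` in `ℝ`. -/
def inc (β : ℝ) : IntermediateField.adjoin ℚ ({β} : Set ℝ) →+* ℝ :=
  algebraMap (IntermediateField.adjoin ℚ ({β} : Set ℝ)) ℝ

/-- **SFA** (medium, 120 lines; from PSA REC and IND). The embeddings of `ℚ(β)`. Proof. REC: `Fac (minpoly ℤ β) β w`, IND: `Indep w`.
`β` is integral over `ℚ`, `minpoly ℚ β` is the image of `minpoly ℤ β` (`minpoly.isIntegrallyClosed_eq_field_fractions'`). By Fac and QQC (PSA)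
the complex roots of the minimal polynomial are `β, β⁻¹, w_j, w_j⁻¹`, pairwise distinct (separable: the root multiset of
`(X - β)(X - β⁻¹) ∏ (X - w_j)(X - w_j⁻¹)` has no duplicates). Homomorphisms `ℚ(β) →+* ℂ` correspond to the roots
(`embedding_of_root`, `embedding_ext`, `root_of_embedding` in `Pool/Agent/Results/MP_2b41e9_nt/Complexity.lean`; ring homomorphisms are
`ℚ`-algebra homomorphisms: `RingHom.toRatAlgHom`, `AlgHom`-`Subsingleton`). `σ`: the homomorphism to `ℝ` with `β ↦ β⁻¹` (a real root; `IntermediateField.adjoin.powerBasis` lift).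
Hence the bijection `e`. -/
def SFA_stmt : Prop := ∀ β : ℝ, IsSalem β → ∃ (k : ℕ) (σ : IntermediateField.adjoin ℚ ({β} : Set ℝ) →+* ℝ)
  (φ : Fin k → IntermediateField.adjoin ℚ ({β} : Set ℝ) →+* ℂ) (w : Fin k → Circle)
  (e : Bool ⊕ (Fin k × Bool) ≃ (IntermediateField.adjoin ℚ ({β} : Set ℝ) →+* ℂ)),
  Indep w ∧ IsIntegral ℤ β⁻¹ ∧ σ (gen β) = β⁻¹ ∧ (∀ j, φ j (gen β) = (w j : ℂ)) ∧
  e (Sum.inl true) = Complex.ofRealHom.comp (inc β) ∧ e (Sum.inl false) = Complex.ofRealHom.comp σ ∧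
  (∀ j, e (Sum.inr (j, true)) = φ j) ∧ ∀ j, e (Sum.inr (j, false)) = (starRingEnd ℂ).comp (φ j)

/-- **SFB** (medium, 100 lines; from SFA). Proof. `K = ℚ(β)` is a number field. `nrm`: `Algebra.norm_eq_prod_embeddings`, the product over all homomorphisms (via `e`,
`Fintype.prod_equiv`, `Fintype.prod_sum_type`, `Fintype.prod_prod_type`) of `‖ψ x‖` is `|ι x| |σ x| ∏ ‖φ_j x‖²`; the norm of an integral `x ≠ 0` is a nonzero integer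
(`Algebra.isIntegral_norm`, `IsIntegrallyClosed.isIntegral_iff`). `fin`: `NumberField.Embeddings.finite_of_norm_le K ℂ B` (all embeddings by `e`). `den`: `exists_integral_multiples`
(or row DEN of PX, `Pool.Agent.helper37.PX.DEN`, theorem `DEN`). `int`: `β` integral in `K` from `ℝ` (`isIntegral_algHom_iff`/`IsIntegral.tower_bot`, injective). -/
def SFB_stmt : Prop := ∀ β : ℝ, IsSalem β → ∃ (k : ℕ) (σ : IntermediateField.adjoin ℚ ({β} : Set ℝ) →+* ℝ)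
  (φ : Fin k → IntermediateField.adjoin ℚ ({β} : Set ℝ) →+* ℂ) (w : Fin k → Circle),
  SF (inc β) (gen β) σ φ w

/-- **ETA** (short, 50 lines; from PSA KRO). Proof. WLOG `η ≤ 1`. If `k = 0` take `τ = 1`. `U = {x : Fin k → Circle | ∀ j, ‖1 + ((x j)⁻¹ : ℂ)‖ < η}` is open, contains
`x = -1` (the element `-1` of `Circle`). KRO: `w^τ ∈ U`, `τ ≠ 0` as `‖1 + 1‖ = 2`. `φ j (1 + β⁻¹^τ) = 1 + (w j)⁻¹^τ`. -/
def ETA_stmt : Prop := ∀ (K : Type) [Field K] (ι : K →+* ℝ) (β : K) (σ : K →+* ℝ) (k : ℕ) (φ : Fin k → K →+* ℂ)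
  (w : Fin k → Circle), SF ι β σ φ w → ∀ η : ℝ, 0 < η → ∃ τ : ℕ, 1 ≤ τ ∧ ∀ j, ‖φ j (1 + β⁻¹ ^ τ)‖ ≤ η

/-! ## Block B: the machine -/

/-- Real part of a block map: `F` is the map of one period (from a position back to it). -/
structure RB (β : ℝ) (F : ℝ → ℝ) (δ : ℝ) : Prop where
  dlt : 0 < δ
  dl1 : δ < 1
  dl2 : β⁻¹ * (1 + δ) < 1
  dl3 : δ ≤ β⁻¹
  rng : ∀ y, 0 ≤ y → y ≤ 1 → 0 ≤ F y ∧ F y < 1
  le : ∀ y, 0 ≤ y → y ≤ 1 → F y ≤ β * y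
  z0 : ∀ y, 0 ≤ y → y < 1 → F (β⁻¹ * y) = y
  z1 : ∀ y, 0 ≤ y → y ≤ δ → F (β⁻¹ * (1 + y)) = y
  cell : ∀ y' y, 0 ≤ y' → y' ≤ y → y ≤ 1 → β * (y - y') ≤ F y → F y' = F y - β * (y - y')

/-- Block map with digits `dg` in a finite set `S` of elements of `K`. -/
structure Blk {K : Type} [Field K] (ι : K →+* ℝ) (β : K) (F : ℝ → ℝ) (dg : ℝ → K) (S : Finset K) (δ : ℝ) : Prop where
  rb : RB (ι β) F δ
  mem : ∀ y, 0 ≤ y → y ≤ 1 → dg y ∈ S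
  pos : ∀ e ∈ S, 0 ≤ ι e
  eq : ∀ y, 0 ≤ y → y ≤ 1 → F y = ι β * y - ι (dg y)

/-- Planning. A state is `(u, c)`, `c` = number of blocks until the planned impulse (`0`: none planned). -/
def plan {K : Type} [Field K] (ι : K →+* ℝ) (β v : K) (dl : K → ℕ) (s : K × ℕ) : K × ℕ :=
  if s.2 = 0 ∧ ι v * (ι β)⁻¹ ≤ ι s.1 then (s.1 - β⁻¹ ^ (dl s.1 + 1), dl s.1 + 1) else s

/-- One block with the digits of `u / v`. -/
def blo {K : Type} [Field K] (ι : K →+* ℝ) (β v : K) (dg : ℝ → K) (q : K × ℕ) : K × ℕ :=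
  (β * q.1 - v * dg (ι q.1 / ι v), q.2 - 1)

/-- The machine. -/
def mch {K : Type} [Field K] (ι : K →+* ℝ) (β v : K) (dg : ℝ → K) (dl : K → ℕ) (s : K × ℕ) : K × ℕ :=
  blo ι β v dg (plan ι β v dl s)

/-- Euclidean norm of the neutral coordinates. -/
def nn {K : Type} [Field K] {k : ℕ} (φ : Fin k → K →+* ℂ) (x : K) : ℝ := Real.sqrt (∑ j, ‖φ j x‖ ^ 2)

/-- Admissible states. -/
def Adm {K : Type} [Field K] (ι σ : K →+* ℝ) {k : ℕ} (φ : Fin k → K →+* ℂ) (v : K) (N H : ℕ) (M n1 Sg : ℝ)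
    (s : K × ℕ) : Prop :=
  0 ≤ ι s.1 ∧ ι s.1 < ι v ∧ s.2 ≤ H ∧ IsIntegral ℤ ((N : K) * s.1) ∧ |σ s.1| ≤ Sg ∧ nn φ s.1 + s.2 * n1 ≤ M

/-- Constants: `N` denominator, `H = h + W + 1`, `n1` noise of one block, `C` bound for the digits. -/
structure Cst {K : Type} [Field K] (ι : K →+* ℝ) (β : K) (σ : K →+* ℝ) {k : ℕ} (φ : Fin k → K →+* ℂ)
    (S : Finset K) (v : K) (N H : ℕ) (C n1 k0 Sg : ℝ) : Prop where
  v1 : 1 < ι v
  v2 : ι v < 2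
  vi : IsIntegral ℤ v
  n0 : 0 < N
  ni : ∀ e ∈ S, IsIntegral ℤ ((N : K) * e)
  no : ∀ e ∈ S, nn φ (v * e) ≤ n1
  np : 0 ≤ n1
  ne : ∀ e ∈ S, nn φ e ≤ C
  se : ∀ e ∈ S, |σ e| ≤ C
  sv : ∀ e ∈ S, |σ (v * e)| ≤ C
  kp : 0 < k0
  hn : H * n1 ≤ k0 / 2
  s1 : 1 ≤ Sg
  sg : (ι β)⁻¹ * (Sg + (ι β) ^ H) + C ≤ Sg

/-- Result of block B: an invariant finite set of states. -/
structure Mach {K : Type} [Field K] (ι : K →+* ℝ) (β : K) (F : ℝ → ℝ) (dg : ℝ → K) (v : K) (dl : K → ℕ) (J : ℕ)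
    (A : Set (K × ℕ)) : Prop where
  fin : A.Finite
  start : ∃ t : K, ι t = F^[J] 1 ∧ (t, 0) ∈ A
  step : ∀ s ∈ A, mch ι β v dg dl s ∈ A
  low : ∀ s ∈ A, 0 ≤ ι (plan ι β v dl s).1
  up : ∀ s ∈ A, ι (plan ι β v dl s).1 < ι v * (1 - 2 * (ι β)⁻¹ ^ J)

/-- **NNR** (short, 50 lines). Proof. `nn φ x` is the norm of `(φ j x)_j` in `EuclideanSpace ℂ (Fin k)` (`EuclideanSpace.norm_eq`): triangle inequality; `‖φ j x‖² ≤` sum;
`‖φ j (m x)‖ = ‖φ j m‖ ‖φ j x‖` and monotonicity of the square root. -/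
def NNR_stmt : Prop := ∀ (K : Type) [Field K] (k : ℕ) (φ : Fin k → K →+* ℂ), (∀ x, 0 ≤ nn φ x) ∧ nn φ 0 = 0 ∧ nn φ 1 = Real.sqrt k ∧
  (∀ x y, nn φ (x + y) ≤ nn φ x + nn φ y) ∧ (∀ x y, nn φ (x - y) ≤ nn φ x + nn φ y) ∧
  (∀ x j, ‖φ j x‖ ≤ nn φ x) ∧
  (∀ (η : ℝ) (m x : K), 0 ≤ η → (∀ j, ‖φ j m‖ ≤ η) → nn φ (m * x) ≤ η * nn φ x) ∧
  (∀ m x : K, (∀ j, ‖φ j m‖ = 1) → nn φ (m * x) = nn φ x)

/-- **FAV** (medium-long, 150 lines). The favourable delay. Proof. `k = 0` trivial. Let `C1 ≥ 2 / ‖1 - ζ‖` for all `ζ` among `w_j`, `w_j w_l` and `w_j w_l⁻¹` with `j ≠ l`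
(all `≠ 1` by `Indep`: exponent vectors `Pi.single`), so `‖∑_(n in a window of consecutive integers) ζ^n‖ ≤ C1` (geometric sum, `‖ζ‖ = 1`). `k0 = 1/(8k)`, `W` with `L = W + 1 > 8 k² C1`. Let `N = √∑‖x_j‖²`; `N = 0` trivial.
`S(n) = ∑ x_j w_j^n`, `f(n) = re S(n)`; window `n = d + 1`, `h ≤ d ≤ h + W`. `‖x_j‖ ≤ N`.
(1) `|∑ f(n)| ≤ k C1 N`. (2) `f² = (‖S‖² + re S²)/2`, `∑ ‖S(n)‖² = ∑_(j,l) x_j conj(x_l) ∑_n (w_j w_l⁻¹)^n` has real part `≥ L N² - k² C1 N²`, `‖∑ S(n)²‖ ≤ k² C1 N²`, so `∑ f(n)² ≥ (L/2 - k² C1) N²`. (3) `|f(n)| ≤ k N`.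
If `f(n) < k0 N` on the window, then `|f| ≤ 2 k0 N - f`, `∑ f² ≤ k N ∑ |f| ≤ k N (2 k0 N L + k C1 N) = (L/4 + k² C1) N²`, so `L/4 ≤ 2 k² C1`, contradiction. -/
def FAV_stmt : Prop := ∀ (k : ℕ) (w : Fin k → Circle), Indep w → ∃ (k0 : ℝ) (W : ℕ), 0 < k0 ∧
  ∀ (x : Fin k → ℂ) (h : ℕ), ∃ d : ℕ, h ≤ d ∧ d ≤ h + W ∧
    k0 * Real.sqrt (∑ j, ‖x j‖ ^ 2) ≤ (∑ j, x j * (w j : ℂ) ^ (d + 1)).re

/-- **PLN** (short-medium, 60 lines). Planning decreases the norm. Proof. `N = √∑‖x_j‖²`. `‖x_j - w_j⁻¹^(d+1)‖² = ‖x_j‖² - 2 re (x_j w_j^(d+1)) + 1` (`conj` of `w⁻¹^(d+1)` is `w^(d+1)`), so the sum is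
`≤ N² - 2 k0 N + k`. If `N ≤ 2 k0` this is `≤ k ≤ (M - k0/2)²` (`M - k0/2 ≥ k + 1`); otherwise `N (N - 2 k0) ≤ M (M - 2 k0)` and `M² - 2 k0 M + k ≤ (M - k0/2)²` as `k ≤ k0 M`. -/
def PLN_stmt : Prop := ∀ (k : ℕ) (w : Fin k → Circle) (k0 M : ℝ) (x : Fin k → ℂ) (d : ℕ), 0 < k0 →
  k / k0 + k + 1 + k0 ≤ M → Real.sqrt (∑ j, ‖x j‖ ^ 2) ≤ M →
  k0 * Real.sqrt (∑ j, ‖x j‖ ^ 2) ≤ (∑ j, x j * (w j : ℂ) ^ (d + 1)).re →
  Real.sqrt (∑ j, ‖x j - ((w j : ℂ)⁻¹) ^ (d + 1)‖ ^ 2) ≤ M - k0 / 2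

/-- **PLA** (short-medium, 80 lines; from PLN). Planning keeps states admissible. Proof. If `plan s = s` nothing to do (`0 ≤ (ι β)^H`). Otherwise `s.2 = 0`, `q = (s.1 - β⁻¹^(d+1), d+1)`, `d = dl s.1`. `0 ≤ ι q.1`: `ι s.1 ≥ ι v (ι β)⁻¹ ≥ (ι β)⁻¹ ≥ (ι β)⁻¹^(d+1)`.
`N q.1` integral: `inv`. `σ (β⁻¹^(d+1)) = (ι β)^(d+1) ≤ (ι β)^H`. `nn φ q.1 ≤ M - k0/2` by PLN with `x j = φ j s.1` (`φ j β⁻¹ = (w j)⁻¹`), and `q.2 n1 ≤ H n1 ≤ k0/2`. -/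
def PLA_stmt : Prop := ∀ (K : Type) [Field K] (ι : K →+* ℝ) (β : K) (σ : K →+* ℝ) (k : ℕ) (φ : Fin k → K →+* ℂ)
  (w : Fin k → Circle), SF ι β σ φ w → ∀ (S : Finset K) (v : K) (N H : ℕ) (C n1 k0 Sg : ℝ), Cst ι β σ φ S v N H C n1 k0 Sg →
  ∀ (dl : K → ℕ), (∀ x, dl x + 1 ≤ H) → (∀ x, k0 * nn φ x ≤ (∑ j, φ j x * (w j : ℂ) ^ (dl x + 1)).re) →
  ∀ (M : ℝ), k / k0 + k + 1 + k0 ≤ M → ∀ s : K × ℕ, Adm ι σ φ v N H M n1 Sg s →
    Adm ι σ φ v N H M n1 (Sg + (ι β) ^ H) (plan ι β v dl s) ∧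
    (1 ≤ (plan ι β v dl s).2 ∨ ι (plan ι β v dl s).1 < ι v * (ι β)⁻¹)

/-- **INV** (medium, 90 lines; from NNR). One block keeps states admissible. Proof. `q = (u, c)`, `y = ι u / ι v ∈ [0, 1)`, `e = dg y ∈ S`, `ι β y - ι e = F y ∈ [0,1)`. `ι (β u - v e) = ι v (F y) ∈ [0, ι v)`.
`N (β u - v e) = β (N u) - v (N e)` integral. `|σ (β u - v e)| ≤ (ι β)⁻¹ (Sg + (ι β)^H) + C ≤ Sg`. Norm: `nn φ (β u) = nn φ u` (`‖φ j β‖ = ‖w j‖ = 1`); if `c ≥ 1`: `nn φ (β u - v e) ≤ nn φ u + n1` and `c - 1 + 1 = c`.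
If `c = 0` then `y < (ι β)⁻¹`, `F y = ι β y` (`z0` with `ι β y < 1`), so `ι e = 0`, `e = 0`. -/
def INV_stmt : Prop := ∀ (K : Type) [Field K] (ι : K →+* ℝ) (β : K) (σ : K →+* ℝ) (k : ℕ) (φ : Fin k → K →+* ℂ)
  (w : Fin k → Circle), SF ι β σ φ w → ∀ (F : ℝ → ℝ) (dg : ℝ → K) (S : Finset K) (δ : ℝ), Blk ι β F dg S δ →
  ∀ (v : K) (N H : ℕ) (C n1 k0 Sg : ℝ), Cst ι β σ φ S v N H C n1 k0 Sg → ∀ (M : ℝ) (q : K × ℕ),
    Adm ι σ φ v N H M n1 (Sg + (ι β) ^ H) q → (1 ≤ q.2 ∨ ι q.1 < ι v * (ι β)⁻¹) →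
    Adm ι σ φ v N H M n1 Sg (blo ι β v dg q)

/-- **STA** (short, 60 lines; from NNR). The starting values. Proof. `t 0 = 1`, `t (n+1) = β t_n - dg (F^[n] 1)` (`F^[n] 1 ∈ [0, 1]`; `Function.iterate_succ_apply'`). `N t_(n+1) = β (N t_n) - N e` integral.
`|σ t_(n+1)| ≤ (ι β)⁻¹ Sg + C ≤ Sg`. `nn φ t_(n+1) ≤ nn φ t_n + C`, `nn φ 1 = √k`. -/
def STA_stmt : Prop := ∀ (K : Type) [Field K] (ι : K →+* ℝ) (β : K) (σ : K →+* ℝ) (k : ℕ) (φ : Fin k → K →+* ℂ)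
  (w : Fin k → Circle), SF ι β σ φ w → ∀ (F : ℝ → ℝ) (dg : ℝ → K) (S : Finset K) (δ : ℝ), Blk ι β F dg S δ →
  ∀ (v : K) (N H : ℕ) (C n1 k0 Sg : ℝ), Cst ι β σ φ S v N H C n1 k0 Sg → ∃ t : ℕ → K, ∀ n : ℕ,
    ι (t n) = F^[n] 1 ∧ ι (t n) ≤ 1 ∧ 0 ≤ ι (t n) ∧ IsIntegral ℤ ((N : K) * t n) ∧ |σ (t n)| ≤ Sg ∧ nn φ (t n) ≤ Real.sqrt k + n * C

/-- **LIO** (short-medium, 60 lines; from NNR). Liouville. Proof. `x = N (v - u)` is integral, not 0 (`ι u < ι v`). `nrm`: `1 ≤ |ι x| |σ x| ∏ ‖φ_j x‖²`, `|ι x| = N (ι v - ι u)`, `|σ x| ≤ N (|σ v| + S')`,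
`‖φ_j x‖ ≤ N (nn φ v + M)`. (`M ≥ 0` since `nn ≥ 0`, `n1 ≥ 0`.) -/
def LIO_stmt : Prop := ∀ (K : Type) [Field K] (ι : K →+* ℝ) (β : K) (σ : K →+* ℝ) (k : ℕ) (φ : Fin k → K →+* ℂ)
  (w : Fin k → Circle), SF ι β σ φ w → ∀ (v : K) (N H : ℕ) (M n1 S' : ℝ), 0 < N → IsIntegral ℤ v → 0 ≤ n1 → ∀ q : K × ℕ,
  Adm ι σ φ v N H M n1 S' q →
    1 ≤ (ι v - ι q.1) * ((N : ℝ) ^ (2 * k + 2) * (|σ v| + S') * (nn φ v + M) ^ (2 * k))

/-- **GRO** (short, 40 lines). Polynomial times `z^J` tends to 0 (`tendsto_pow_const_mul_const_pow_of_abs_lt_one`; `B + C J ≤ (B + C) (J + 1)`, or expand). -/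
def GRO_stmt : Prop := ∀ (z A B C : ℝ) (n : ℕ), 0 < z → z < 1 → 0 ≤ B → 0 ≤ C →
  ∃ J₀ : ℕ, ∀ J : ℕ, J₀ ≤ J → 4 * z ^ J * (A * (B + C * J) ^ n) < 1

/-- **CON** (medium, 110 lines; from ETA NNR FAV). Choice of the constants. Proof. `h ≥ 1` with `(ι β)⁻¹^(h+1) (1 + δ) ≤ δ`. `k0, W` from FAV, `H = h + W + 1`; `dl x`: choose `d` of FAV for `x_j = φ_j x` and `h`. `C₀ ≥ 1` with `nn φ e ≤ C₀` for `e ∈ S` (for a finite set and a function `g` there is an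
upper bound: `1 + ∑_(e ∈ S) |g e|`). `η = k0 / (2 H C₀)`, `τ` from ETA, `v = 1 + β⁻¹^τ` (`ι v ∈ (1, 2)`, integral), `n1 = η C₀` (`no`: NNR), `H n1 = k0/2`. `C ≥ C₀`, `|σ e|`, `|σ (v e)|` for `e ∈ S`. `N` from `den`. `Sg = 1 + ((ι β)^H + C)/(1 - (ι β)⁻¹)`. -/
def CON_stmt : Prop := ∀ (K : Type) [Field K] (ι : K →+* ℝ) (β : K) (σ : K →+* ℝ) (k : ℕ) (φ : Fin k → K →+* ℂ)
  (w : Fin k → Circle), SF ι β σ φ w → ∀ (F : ℝ → ℝ) (dg : ℝ → K) (S : Finset K) (δ : ℝ), Blk ι β F dg S δ →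
  ∃ (τ h : ℕ) (dl : K → ℕ) (N H : ℕ) (C n1 k0 Sg : ℝ), 1 ≤ τ ∧ 1 ≤ h ∧ (∀ x, h ≤ dl x ∧ dl x + 1 ≤ H) ∧
    (ι β)⁻¹ ^ (h + 1) * (1 + δ) ≤ δ ∧ Cst ι β σ φ S (1 + β⁻¹ ^ τ) N H C n1 k0 Sg ∧
    ∀ x, k0 * nn φ x ≤ (∑ j, φ j x * (w j : ℂ) ^ (dl x + 1)).re

/-- **MCH** (medium, 110 lines; from CON NNR PLA INV STA LIO GRO). The invariant sets. Proof. Constants from CON, `v = 1 + β⁻¹^τ`. `C ≥ 0` may be assumed: if `S = ∅` the block map has no digit at `y = 0` (`mem`), so `S ≠ ∅` and `0 ≤ nn φ e ≤ C`. For `J` let `M = (k/k0 + k + 1 + k0 + √k) + J C`, `A = {s | Adm ι σ φ v N H M n1 Sg s}`. Finite: `s ↦ (N s.1, s.2)` is injective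
(`N ≠ 0` in `K`: `ι N = N`) into the product of a finite set of `fin` and `{0..H}` (`‖φ_j s.1‖ ≤ nn ≤ M`, NNR). Start: STA for `n = J` (`s.2 = 0`, `ι (t J) ≤ 1 < ι v`). Step: PLA and INV. `low`: PLA. `up`: LIO for `plan s` (admissible with `Sg + (ι β)^H`, PLA): `1 ≤ (ι v - ι q.1) G`, `G = A' (nn φ v + M)^(2k)`, `A' = N^(2k+2) (|σ v| + Sg + (ι β)^H)`, and GRO with
`A'`, `B = nn φ v + M₀`, `C`: `4 z^J G < 1` for `J ≥ J₀`, so `ι v - ι q.1 > 4 z^J ≥ ι v * 2 z^J`. -/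
def MCH_stmt : Prop := ∀ (K : Type) [Field K] (ι : K →+* ℝ) (β : K) (σ : K →+* ℝ) (k : ℕ) (φ : Fin k → K →+* ℂ)
  (w : Fin k → Circle), SF ι β σ φ w → ∀ (F : ℝ → ℝ) (dg : ℝ → K) (S : Finset K) (δ : ℝ), Blk ι β F dg S δ →
  ∃ (τ h : ℕ) (dl : K → ℕ), 1 ≤ τ ∧ 1 ≤ h ∧ (∀ x, h ≤ dl x) ∧ (ι β)⁻¹ ^ (h + 1) * (1 + δ) ≤ δ ∧
    ∃ J₀ : ℕ, ∀ J : ℕ, J₀ ≤ J → ∃ A : Set (K × ℕ), Mach ι β F dg (1 + β⁻¹ ^ τ) dl J A

/-! ## Block C: the words -/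

/-- Tails of the series with digits `a`. -/
def tl (z : ℝ) (a : ℕ → ℝ) (n : ℕ) : ℝ := ∑' l : ℕ, z ^ (l + 1) * a (n + l)

/-- Value of a pending impulse. -/
def pen (z : ℝ) (c : ℕ) : ℝ := if c = 0 then 0 else z ^ c

/-- The impulse at the end of a block with counter `c`. -/
def imp (c : ℕ) : ℝ := if c = 1 then 1 else 0

/-- A run of the machine: states `(u, c)`, planned states `(u', c')`, digits `e`; `z = 1/β`. -/
structure Run (z v : ℝ) (h : ℕ) (F : ℝ → ℝ) (u u' e : ℕ → ℝ) (c c' : ℕ → ℕ) : Prop where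
  pl : ∀ n, (c n = 0 ∧ v * z ≤ u n ∧ h + 1 ≤ c' n ∧ u' n = u n - z ^ (c' n)) ∨
    ((c n ≠ 0 ∨ u n < v * z) ∧ c' n = c n ∧ u' n = u n)
  un : ∀ n, u (n + 1) = z⁻¹ * u' n - v * e n
  cn : ∀ n, c (n + 1) = c' n - 1
  low : ∀ n, 0 ≤ u' n
  up : ∀ n, u' n < v
  fe : ∀ n, F (u' n / v) = z⁻¹ * (u' n / v) - e n
  en : ∀ n, 0 ≤ e n ∧ e n ≤ z⁻¹
  ub : ∀ n, 0 ≤ u n ∧ u n ≤ 2
  c0 : c 0 = 0
  u0 : 0 < u 0

/-- **TLR** (short-medium, 80 lines). Tails. Proof. Summable by comparison with `A z^(l+1)`. Recursion: `tsum` without the first term (`Summable.tsum_eq_zero_add`). Uniqueness and comparison: iterate `g n ≥ z (a n + g (n+1))`: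
`g n ≥ ∑_(l<m) z^(l+1) a_(n+l) + z^m g (n+m)`, `m → ∞`. -/
def TLR_stmt : Prop := ∀ (z A : ℝ) (a : ℕ → ℝ), 0 < z → z < 1 → (∀ n, |a n| ≤ A) →
  (∀ n, tl z a n = z * (a n + tl z a (n + 1))) ∧
  (∀ n, |tl z a n| ≤ z * A / (1 - z)) ∧
  ((∀ n, 0 ≤ a n) → ∀ n, 0 ≤ tl z a n) ∧
  ((∀ n, 0 ≤ a n) → tl z a 0 = 0 → ∀ n, a n = 0) ∧
  (∀ (g : ℕ → ℝ) (B : ℝ), (∀ n, |g n| ≤ B) → (∀ n, z * (a n + g (n + 1)) ≤ g n) → ∀ n, tl z a n ≤ g n) ∧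
  (∀ (g : ℕ → ℝ) (B : ℝ), (∀ n, |g n| ≤ B) → (∀ n, g n = z * (a n + g (n + 1))) → ∀ n, g n = tl z a n)

/-- **PIG** (short, 30 lines). Pigeonhole: `n ↦ T^[n] s` into a finite set is not injective; then periodic (`Function.iterate_add_apply`). -/
def PIG_stmt : Prop := ∀ (α : Type) (A : Set α) (T : α → α) (s : α), A.Finite → s ∈ A → (∀ a ∈ A, T a ∈ A) →
  (∀ n, T^[n] s ∈ A) ∧ ∃ N P : ℕ, 0 < P ∧ ∀ n, N ≤ n → T^[n + P] s = T^[n] s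

/-- **EVP** (short-medium, 80 lines; from TLR). Tails of eventually periodic sequences. Proof. `z = (ι β)⁻¹`. For `n ≥ N`: `tl (n + P) = tl n` (same digits), and `tl n = ∑_(l<P) z^(l+1) a_(n+l) + z^P tl (n+P)`, so
`tl n = ι (x n)`, `x n = (∑_(l<P) β⁻¹^(l+1) a_(n+l))/(1 - β⁻¹^P)`; for `n < N` downward with the recursion (`x n = β⁻¹ (a n + x (n+1))`; induction on `N - n`). By injectivity of `ι` one may choose any `x n` with this value.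
Finite range: `x (n + P) = x n` for `n ≥ N`, so all values occur for `n < N + P`. (`|ι (a n)|` is bounded, as `a` has finite range.) -/
def EVP_stmt : Prop := ∀ (K : Type) [Field K] (ι : K →+* ℝ) (β : K), 1 < ι β → ∀ (a : ℕ → K) (N P : ℕ), 0 < P →
  (∀ n, N ≤ n → a (n + P) = a n) → ∃ x : ℕ → K, (∀ n, ι (x n) = tl (ι β)⁻¹ (fun m => ι (a m)) n) ∧ (Set.range x).Finite

/-- **MRN** (short-medium, 80 lines; from PIG). The run of the machine. Proof. `t` from `start`, `s n = (mch ι β v dg dl)^[n] (t, 0) ∈ A`. `q n = plan .. (s n)`, `u n = ι (s n).1`, `c n = (s n).2`, `u' n = ι (q n).1`, `c' n = (q n).2`, `e n = ι (dg (u' n / ι v))`.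
`pl`: definition of `plan` (`ι (β⁻¹^m) = z^m`). `un, cn`: `blo`. `low, up`: Mach (`1 - 2 z^J < 1`). `fe`: `Blk.eq`; `e ≤ β`: `F ≥ 0`. `ub`: `u (n+1) = ι v F(..) ∈ [0, ι v)`, `u 0 = F^[J] 1 ∈ [0, 1]`. `u 0 > 0`: hypothesis. Eventually periodic: PIG. -/
def MRN_stmt : Prop := ∀ (K : Type) [Field K] (ι : K →+* ℝ) (β : K), 1 < ι β → ∀ (F : ℝ → ℝ) (dg : ℝ → K) (S : Finset K) (δ : ℝ), Blk ι β F dg S δ →
  (∀ m, F^[m] 1 ≠ 0) → ∀ (v : K) (h : ℕ) (dl : K → ℕ) (J : ℕ) (A : Set (K × ℕ)), 1 < ι v → ι v < 2 → (∀ x, h ≤ dl x) → Mach ι β F dg v dl J A →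
  ∃ (u u' : ℕ → ℝ) (eK : ℕ → K) (c c' : ℕ → ℕ), Run (ι β)⁻¹ (ι v) h F u u' (fun n => ι (eK n)) c c' ∧ u 0 = F^[J] 1 ∧
    (∀ n, u' n < ι v * (1 - 2 * (ι β)⁻¹ ^ J)) ∧
    ∃ N P : ℕ, 0 < P ∧ ∀ n, N ≤ n → eK (n + P) = eK n ∧ c' (n + P) = c' n

/-- **SQX** (medium, 90 lines; from TLR). The impulse word. Proof. `X = tl z (imp ∘ c')`, `β = z⁻¹`. (1) `X n ≤ Y n := if c n = 0 then δ else z^(c n) (1 + δ)`: comparison, `z (imp (c' n) + Y (n+1)) ≤ Y n`: no planning, `c n = 0`: `z δ ≤ δ`; planning: `c' n ≥ h + 1 ≥ 2`, `imp = 0`, `c (n+1) = c' n - 1 ≥ 1`,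
`z z^(c'-1) (1+δ) = z^(c') (1+δ) ≤ z^(h+1) (1+δ) ≤ δ`; `c n = 1`: `z (1 + δ)`; `c n ≥ 2`: equality. (2) `pen z (c' n) ≤ X n`: induction on `c' n` (for all `n`): `c' = 1`: `X n = z (1 + X (n+1)) ≥ z`; `c' ≥ 2`: `c (n+1) = c' - 1 ≠ 0`, so `c' (n+1) = c' n - 1`,
`X n = z X (n+1)`. (3) `F (X n) = X (n+1)`: `imp = 0`: `X n = z X (n+1)`, `z0` (`X (n+1) ≤ Y (n+1) < 1`); `imp = 1`: `c' n = 1`, `c (n+1) = 0`, `X (n+1) ≤ δ`, `z1`. -/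
def SQX_stmt : Prop := ∀ (z v δ : ℝ) (h : ℕ) (F : ℝ → ℝ) (u u' e : ℕ → ℝ) (c c' : ℕ → ℕ), 0 < z → z < 1 → 1 ≤ h → z ^ (h + 1) * (1 + δ) ≤ δ →
  RB z⁻¹ F δ → Run z v h F u u' e c c' → ∀ n : ℕ, 0 ≤ tl z (fun m => imp (c' m)) n ∧ pen z (c' n) ≤ tl z (fun m => imp (c' m)) n ∧
    (c n = 0 → tl z (fun m => imp (c' m)) n ≤ δ) ∧ tl z (fun m => imp (c' m)) n ≤ max δ (z * (1 + δ)) ∧
    F (tl z (fun m => imp (c' m)) n) = tl z (fun m => imp (c' m)) (n + 1)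

/-- **SQD** (medium, 90 lines; from TLR and SQX). The word of small weight. Proof. `X = tl z (imp ∘ c')`, `D = tl z e`. `w n = u n + pen z (c n)` satisfies `w n = u' n + pen z (c' n)` and `w n = z (imp (c' n) + v e n + w (n+1))` (`z pen (c' - 1) + z imp c' = pen c'`), so
`w n = X n + v D n` (uniqueness for the digits `imp + v e`; linearity, e.g. apply uniqueness to `X + v D` too). `v D n = w n - X n ≤ u' n` by SQX (2). `F (D n) = D (n+1)`: `cell` with `y = u' n / v`, `y' = D n`: `F y - β (y - D n) = β D n - e n = D (n+1) ≥ 0`.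
`0 < D 0`: otherwise all `e n = 0` (TLR), `D = 0`, `w = X`. If some `n` has planning: `c n = 0`, `v z ≤ u n = X n ≤ δ ≤ z < v z`, contradiction. So no planning: `c n = 0` for all `n`, `u (n+1) = z⁻¹ u n`, `u n = z⁻¹^n u 0 → ∞`, contradiction to `u ≤ 2`. -/
def SQD_stmt : Prop := ∀ (z v δ : ℝ) (h : ℕ) (F : ℝ → ℝ) (u u' e : ℕ → ℝ) (c c' : ℕ → ℕ), 0 < z → z < 1 → 1 ≤ h → z ^ (h + 1) * (1 + δ) ≤ δ →
  1 < v → v < 2 → RB z⁻¹ F δ → Run z v h F u u' e c c' → tl z (fun m => imp (c' m)) 0 + v * tl z e 0 = u 0 ∧ 0 < tl z e 0 ∧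
    ∀ n : ℕ, 0 ≤ tl z e n ∧ v * tl z e n ≤ u' n ∧ F (tl z e n) = tl z e (n + 1)

/-- `κ` and `θ` are suitable for the block map `F`. -/
def Hole (F : ℝ → ℝ) (κ θ : ℝ) : Prop :=
  κ < θ ∧ θ < 1 ∧ (∀ m, 1 ≤ m → F^[m] κ < κ) ∧ (∀ m, F^[m] (θ - κ) < κ) ∧ (∀ m, F^[m] (1 - θ) < κ) ∧
  (Set.range (fun m => F^[m] κ)).Finite ∧ (Set.range (fun m => F^[m] (θ - κ))).Finite ∧
  (Set.range (fun m => F^[m] (1 - θ))).Finite

/-- **KTH** (medium, 120 lines). Prefix and echo. Proof. `z = β⁻¹`, `t m = F^[m] 1`, `κ = 1 - v z^J D 0`, `v = 1 + z^τ < 2`, `0 < D 0 < 1`: `1 - κ < 2 z^J`. `θ - κ = z^J D 0`, `1 - θ = z^(τ+J) D 0`. `t m ≥ 0`, `t m < 1` for `m ≥ 1`, `t (m+1) ≤ β t m`, so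
`v D 0 ≤ t J ≤ β^(J-m) t m` for `m ≤ J`. By induction `F^[m] κ = t m - β^m (1 - κ)` for `m ≤ J`: `cell` with `y = t m`, `y' = t m - β^m (1 - κ) ≥ 0`, `β^(m+1) (1 - κ) = v z^(J-m-1) D 0 ≤ t (m+1)`. So `F^[J] κ = X 0` and `F^[J+n] κ = X n`. For `1 ≤ m ≤ J`:
`F^[m] κ < 1 - (1 - κ) = κ`; for `m > J`: `X (m - J) < 1 - 2 z^J < κ`. `F^[m] (z^r D 0) = z^(r-m) D 0` for `m ≤ r` (`z0`), `= D (m - r)` for `m ≥ r`; all `< 1 - 2 z^J < κ`. Finite: a finite set of the first values, and the ranges of `X`, `D`. -/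
def KTH_stmt : Prop := ∀ (β : ℝ) (F : ℝ → ℝ) (δ : ℝ), 1 < β → RB β F δ → ∀ (τ J : ℕ) (X D : ℕ → ℝ), 1 ≤ τ →
  X 0 + (1 + β⁻¹ ^ τ) * D 0 = F^[J] 1 → (∀ n, 0 ≤ X n ∧ X n < 1 - 2 * β⁻¹ ^ J ∧ F (X n) = X (n + 1)) →
  (∀ n, 0 ≤ D n ∧ D n < 1 - 2 * β⁻¹ ^ J ∧ F (D n) = D (n + 1)) → 0 < D 0 → (Set.range X).Finite → (Set.range D).Finite →
  1 - 2 * β⁻¹ ^ J < 1 - (1 + β⁻¹ ^ τ) * β⁻¹ ^ J * D 0 ∧
  Hole F (1 - (1 + β⁻¹ ^ τ) * β⁻¹ ^ J * D 0) (1 - β⁻¹ ^ (τ + J) * D 0)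

/-- **CTR** (short-medium, 80 lines; from MCH MRN SQX SQD EVP KTH). The control theorem. Proof. MCH: `τ, h, dl, J₀`; `J ≥ J₀` with `2 z^J < ε` and `max δ (z (1+δ)) < 1 - 2 z^J`. MRN with `v = 1 + β⁻¹^τ`; `X, D` from EVP for `a n = (if c' n = 1 then 1 else 0 : K)` and `eK`; SQX, SQD; `v D n ≤ u' n < v (1 - 2 z^J)`; KTH.
`κ = 1 - (1 + β⁻¹^τ) β⁻¹^J D_0`, `θ = 1 - β⁻¹^(τ+J) D_0` in `K`. -/
def CTR_stmt : Prop := ∀ (K : Type) [Field K] (ι : K →+* ℝ) (β : K) (σ : K →+* ℝ) (k : ℕ) (φ : Fin k → K →+* ℂ)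
  (w : Fin k → Circle), SF ι β σ φ w → ∀ (F : ℝ → ℝ) (dg : ℝ → K) (S : Finset K) (δ : ℝ), Blk ι β F dg S δ →
  (∀ m, F^[m] 1 ≠ 0) → ∀ ε : ℝ, 0 < ε → ∃ κ θ : K, 1 - ε < ι κ ∧ Hole F (ι κ) (ι θ)

/-! ## Block D: the coarse system -/

/-- Reduction at a position with hole `[κ, 1)` (split position); `κ = θ = 1` at the other positions. -/
def rho (κ θ r : ℝ) : ℝ := if r < κ then r else if r < θ then r - κ else r - θ

/-- Coarse orbit of `x` from position `i` (values after reduction). -/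
def orb (b κ θ : ℕ → ℝ) (i : ℕ) (x : ℝ) : ℕ → ℝ
  | 0 => x
  | n + 1 => rho (κ (i + n + 1)) (θ (i + n + 1)) (Int.fract (b (i + n) * orb b κ θ i x n))

/-- The coarse system. -/
structure Sys {K : Type} [Field K] (ι : K →+* ℝ) (β : K) (p : ℕ) (b κ θ : ℕ → ℝ) : Prop where
  hp : 0 < p
  pb : ∀ n, b (n + p) = b n
  pk : ∀ n, κ (n + p) = κ n
  pt : ∀ n, θ (n + p) = θ n
  b1 : ∀ n, 1 < b n
  pr : ι β = ∏ i ∈ range p, b i
  bK : ∀ n, ∃ x : K, ι x = b n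
  kK : ∀ n, ∃ x : K, ι x = κ n
  tK : ∀ n, ∃ x : K, ι x = θ n
  ht : ∀ n, (κ n = 1 ∧ θ n = 1) ∨ (κ n < θ n ∧ θ n < 1)
  hk : ∀ n, 1 / 2 < κ n
  hb : ∀ n m, 1 < b m * κ n

/-- Starting values at position `i`. -/
def St (κ θ : ℕ → ℝ) (i : ℕ) (x : ℝ) : Prop :=
  (κ i = 1 ∧ x = 1) ∨ (κ i < 1 ∧ (x = κ i ∨ x = θ i - κ i ∨ x = 1 - θ i))

/-- Good positions. -/
def Good (b κ θ : ℕ → ℝ) (i : ℕ) : Prop := ∀ x, St κ θ i x → (Set.range (orb b κ θ i x)).Finite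

/-- Maps of the form `y ↦ m y - e(y)` with greedy digits. -/
structure CMp {K : Type} [Field K] (ι : K →+* ℝ) (m : K) (f : ℝ → ℝ) : Prop where
  mp : 0 < ι m
  dig : ∃ S : Finset K, (∀ e ∈ S, 0 ≤ ι e) ∧ ∀ y, 0 ≤ y → y ≤ 1 → ∃ e ∈ S, f y = ι m * y - ι e
  rng : ∀ y, 0 ≤ y → y ≤ 1 → 0 ≤ f y ∧ f y < 1
  cell : ∀ y' y, 0 ≤ y' → y' ≤ y → y ≤ 1 → ι m * (y - y') ≤ f y → f y' = f y - ι m * (y - y')

/-- **CMS** (medium, 90 lines). One step. Proof. Digits: `a + g`, `0 ≤ a ≤ ⌊ι bK⌋` integer, `g ∈ {0, κK, θK}`. `r = Int.fract (b y) ∈ [0, 1)`; cases `r < κ` (`rho = r < 1`), `κ ≤ r < θ` (`rho = r - κ ∈ [0, 1)`), `θ ≤ r` (`rho = r - θ ∈ [0, 1)`). Cell: `s = b (y - y') ≤ rho r`; in every case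
`0 ≤ r - s < 1`, `Int.fract (b y') = r - s` (`Int.fract_eq_iff`), and `r - s` is in the same case (`r - s < κ`; `κ ≤ r - s < θ`; `θ ≤ r - s`). -/
def CMS_stmt : Prop := ∀ (K : Type) [Field K] (ι : K →+* ℝ) (b κ θ : K), 1 < ι b → 0 < ι κ →
  ((ι κ = 1 ∧ ι θ = 1) ∨ (ι κ < ι θ ∧ ι θ < 1)) → CMp ι b (fun y => rho (ι κ) (ι θ) (Int.fract (ι b * y)))

/-- **CMC** (short-medium, 50 lines). Composition. Proof. `g (f y) = m' (m y - e) - e' = m' m y - (m' e + e')`: digits `m' e + e'` (`Finset.image₂`). Cell: `m m' (y - y') ≤ g (f y) ≤ m' (f y)`, so `m (y - y') ≤ f y`, `f y' = f y - m (y - y') ≥ 0`, then `m' (f y - f y') = m' m (y - y') ≤ g (f y)`. -/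
def CMC_stmt : Prop := ∀ (K : Type) [Field K] (ι : K →+* ℝ) (m m' : K) (f g : ℝ → ℝ), CMp ι m f → CMp ι m' g →
  CMp ι (m' * m) (fun y => g (f y))

/-- **BLK** (medium-long, 140 lines; from CMS CMC). The block map. Proof. By induction on `n ≥ 1`: `CMp ι B (fun y => orb b κ θ i y n)` with `ι B = ∏_(l<n) b (i+l)`; for `n = p` the product is `ι β` (periodicity: `prod_shift` in `Complexity.lean`, or `Finset.prod` over a period), so `B = β`. `dg`: choice.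
`δ`: smaller than `1/2`, `(ι β)⁻¹`, `ι β - 1`, and `(1 + δ) < b m κ n` for all `m, n < p` (finitely many, `hb`; so for all `m, n` by periodicity). `z0, z1`: let `y₀ = (ι β)⁻¹ y₁` with `0 ≤ y₁ ≤ 1 + δ`. For `n < p`: `orb .. y₀ n = y₀ ∏_(l<n) b (i+l)` by induction:
`y₀ ∏_(l≤n) b (i+l) = y₁ / ∏_(n<l<p) b (i+l) ≤ y₁ / b (i+n+1) < κ (i+n+1)` for `n + 1 < p` (the other factors are `> 1`), so fract and rho do nothing. Last step: `b (i+p-1) orb (p-1) = y₁`, `κ (i+p) = κ i = 1 = θ (i+p)`, so the value is `Int.fract y₁`: `y` for `y₁ = y < 1`, and `y` for `y₁ = 1 + y`, `0 ≤ y < 1`. -/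
def BLK_stmt : Prop := ∀ (K : Type) [Field K] (ι : K →+* ℝ) (β : K) (p : ℕ) (b κ θ : ℕ → ℝ), Sys ι β p b κ θ → ∀ i : ℕ, κ i = 1 →
  ∃ (dg : ℝ → K) (S : Finset K) (δ : ℝ), Blk ι β (fun y => orb b κ θ i y p) dg S δ

/-- **ORP** (short-medium, 60 lines). Periodicity of orbits. Proof. `orb i x (n + r) = orb (i + n) (orb i x n) r` (induction on `r`), `orb (i + p) = orb i` (induction), so `F^[m] x = orb i x (m p)` by induction on `m` (`Function.iterate_succ_apply'`). -/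
def ORP_stmt : Prop := ∀ (p : ℕ) (b κ θ : ℕ → ℝ), (∀ n, b (n + p) = b n) → (∀ n, κ (n + p) = κ n) → (∀ n, θ (n + p) = θ n) →
  (∀ (i : ℕ) (x : ℝ) (n r : ℕ), orb b κ θ i x (n + r) = orb b κ θ (i + n) (orb b κ θ i x n) r) ∧
  (∀ (i : ℕ) (x : ℝ) (n : ℕ), orb b κ θ (i + p) x n = orb b κ θ i x n) ∧
  ∀ (i : ℕ) (x : ℝ) (m r : ℕ), orb b κ θ i x (m * p + r) = orb b κ θ i ((fun y => orb b κ θ i y p)^[m] x) r

/-- **SAM** (short-medium, 60 lines). Same orbits. Proof. Induction on `n`; step at position `j + n + 1`: if its class is not that of `i`, the same functions; otherwise `rho 1 1 (fract ..) = fract ..` and this old value is `< κ' (j+n+1)`, so the new `rho` gives the same. -/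
def SAM_stmt : Prop := ∀ (p : ℕ) (b κ θ κ' θ' : ℕ → ℝ) (i : ℕ), (∀ n, n % p ≠ i % p → κ' n = κ n ∧ θ' n = θ n) →
  (∀ n, n % p = i % p → κ n = 1 ∧ θ n = 1) → ∀ (j : ℕ) (x : ℝ),
  (∀ n, 1 ≤ n → (j + n) % p = i % p → orb b κ θ j x n < κ' (j + n)) → ∀ n, orb b κ' θ' j x n = orb b κ θ j x n

/-- **NZR** (short-medium, 60 lines; from ORP). Bad positions. Proof. If `F^[m] 1 = 0` then by ORP `orb i 1 (m p + r) = orb i 0 r = 0` for all `r` (`fract 0 = 0`, `rho κ θ 0 = 0` as `κ > 0`), so the range is finite, and `κ i = 1` means `St` only for `x = 1`: `Good i`. -/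
def NZR_stmt : Prop := ∀ (K : Type) [Field K] (ι : K →+* ℝ) (β : K) (p : ℕ) (b κ θ : ℕ → ℝ), Sys ι β p b κ θ → ∀ i : ℕ, κ i = 1 →
  ¬ Good b κ θ i → ∀ m, (fun y => orb b κ θ i y p)^[m] 1 ≠ 0

/-- **GDP** (short, 25 lines; from ORP). Being good depends on the class modulo `p`. Proof. `j' = j + m p` or `j = j' + m p`; `κ, θ` periodic, `orb` periodic (ORP), so `St` and the orbits are the same. -/
def GDP_stmt : Prop := ∀ (K : Type) [Field K] (ι : K →+* ℝ) (β : K) (p : ℕ) (b κ θ : ℕ → ℝ), Sys ι β p b κ θ → ∀ j j' : ℕ,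
  j % p = j' % p → Good b κ θ j → Good b κ θ j'

/-- **THR** (short-medium, 60 lines; from ORP GDP). Threshold. Proof. `orb .. (n+1) = rho κ θ (fract ..) < 1` (cases; `κ, θ > 0`). For every good `j < p` and each of its at most three starting values the range of the orbit is finite, so there is `μ < 1` above all values at times `≥ 1` (maximum over a finite set, e.g. `Set.Finite` union over `j < p` and
`x ∈ {1, κ j, θ j - κ j, 1 - θ j}` of the set `{y ∈ range | y < 1}`; `Set.Finite.exists_maximal`-type lemma or induction). For general `j` reduce to `j % p` (ORP second part, iterated). -/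
def THR_stmt : Prop := ∀ (K : Type) [Field K] (ι : K →+* ℝ) (β : K) (p : ℕ) (b κ θ : ℕ → ℝ), Sys ι β p b κ θ → ∃ μ : ℝ, μ < 1 ∧
  ∀ j : ℕ, Good b κ θ j → ∀ x, St κ θ j x → ∀ n, 1 ≤ n → orb b κ θ j x n < μ

/-- **SPL** (medium-long, 150 lines; from ORP SAM GDP THR). One splitting. Proof. `μ` from THR. `ε' > 0` small: `ε' ≤ ε`, `1 - ε' > μ`, `1 - ε' > 1/2`, `1 < b m (1 - ε')` for all `m` (finitely many `m < p`, `b` periodic).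
`κ0, θ0` from the hypothesis for `ε'`; `κ' n = if n % p = i % p then ι κ0 else κ n`, `θ'` likewise. Sys: clear (`ι κ0 > 1 - ε'`). Good `j ↦` Good' `j`: `j % p ≠ i % p` since `i` is not good (GDP); `St` unchanged; SAM (values at times `≥ 1` are `< μ < ι κ0`). Good' `i`: `St κ' θ' i x` gives `x ∈ {κ0, θ0 - κ0, 1 - θ0}` (`κ' i < 1`); in SAM with
`j = i`: `(i + n) % p = i % p` iff `n = m p`, for `n ≥ 1` `m ≥ 1`, `orb i x (m p) = F^[m] x < κ0` (Hole, ORP with `r = 0`); so the new orbit is the old one, and it has finite range: ORP, `orb i x (m p + r)`, `r < p`, is a function of `r` and `F^[m] x`, finitely many values. -/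
def SPL_stmt : Prop := ∀ (K : Type) [Field K] (ι : K →+* ℝ) (β : K) (p : ℕ) (b κ θ : ℕ → ℝ), Sys ι β p b κ θ → ∀ i : ℕ, κ i = 1 →
  ¬ Good b κ θ i → (∀ ε : ℝ, 0 < ε → ∃ κ0 θ0 : K, 1 - ε < ι κ0 ∧ Hole (fun y => orb b κ θ i y p) (ι κ0) (ι θ0)) →
  ∀ ε : ℝ, 0 < ε → ∃ κ' θ' : ℕ → ℝ, Sys ι β p b κ' θ' ∧ κ' i < 1 ∧ 1 - ε < κ' i ∧
    (∀ n, n % p ≠ i % p → κ' n = κ n ∧ θ' n = θ n) ∧ (∀ n, n % p = i % p → κ' n = κ' i ∧ θ' n = θ' i) ∧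
    Good b κ' θ' i ∧ ∀ j, Good b κ θ j → Good b κ' θ' j

/-- **CRS** (medium, 100 lines; from CTR BLK NZR SPL GDP). The coarse theorem. Proof. Let `P κ θ`: `Sys ∧ (∀ n, κ n < 1 → 1 - ε < κ n ∧ Good b κ θ n ∧ ¬ Good b 1 1 n) ∧ (∀ n, Good b 1 1 n → Good b κ θ n)`. Strong induction on the number of `j < p` with `¬ Good b κ θ j`. If it is 0, all positions are good (GDP with `n % p < p`).
Otherwise take such a `j = i`: `κ i = 1` (`ht`, otherwise good). `F = fun y => orb b κ θ i y p`: BLK, NZR, CTR, so SPL applies: new `κ', θ'`; `P` is preserved (`n` in the class of `i`: `Good' n`, `Good b 1 1 n` would give `Good b κ θ n`, so `Good b κ θ i` by GDP), the number drops (the bad set shrinks and loses `i`). -/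
def CRS_stmt : Prop := ∀ (K : Type) [Field K] (ι : K →+* ℝ) (β : K) (σ : K →+* ℝ) (k : ℕ) (φ : Fin k → K →+* ℂ)
  (w : Fin k → Circle), SF ι β σ φ w → ∀ (p : ℕ) (b : ℕ → ℝ), Sys ι β p b (fun _ => 1) (fun _ => 1) → ∀ ε : ℝ, 0 < ε →
  ∃ κ θ : ℕ → ℝ, Sys ι β p b κ θ ∧ (∀ n, κ n < 1 → 1 - ε < κ n ∧ ¬ Good b (fun _ => 1) (fun _ => 1) n) ∧
    ∀ n, Good b κ θ n

/-! ## Block E: the refined base -/

/-- Alternate base (b 0, ..., b (p-1)) of real numbers > 1 with product β, indices mod p. -/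
def IsAlt (β : ℝ) (p : ℕ) (b : ℕ → ℝ) : Prop :=
  0 < p ∧ (∀ n, b (n + p) = b n) ∧ (∀ n, 1 < b n) ∧ β = ∏ i ∈ Finset.range p, b i

/-- All entries lie in ℚ(β). -/
def InField (β : ℝ) (b : ℕ → ℝ) : Prop :=
  ∀ n, b n ∈ IntermediateField.adjoin ℚ ({β} : Set ℝ)

/-- r is the sequence of remainders of the greedy expansion of 1 for the i-th shift of b. -/
def IsGreedy (b : ℕ → ℝ) (i : ℕ) (r : ℕ → ℝ) : Prop :=
  r 0 = 1 ∧ ∀ n, r (n + 1) = b (n + i) * r n - (⌊b (n + i) * r n⌋ : ℝ)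

/-- The greedy expansion of 1 for the i-th shift has ultimately periodic digits. -/
def EvPer (b : ℕ → ℝ) (i : ℕ) : Prop := ∀ r : ℕ → ℝ, IsGreedy b i r →
  ∃ N T : ℕ, 0 < T ∧ ∀ n, N ≤ n → ⌊b (n + T + i) * r (n + T)⌋ = ⌊b (n + i) * r n⌋

/-- Parry (the conclusion of S16397). -/
def IsParry (p : ℕ) (b : ℕ → ℝ) : Prop := ∀ i, i < p → EvPer b i

/-- The block replacing the entry `b`. -/
def sbl (κ θ b : ℝ) : List ℝ := if κ = 1 then [b] else [1 / θ, θ / κ, b * κ]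

/-- **RNB** (short-medium, 80 lines). One block. Proof. Split case, `1/2 < κ < θ < 1`: first factor: `⌊r/θ⌋ = 1` iff `θ ≤ r` (`1/θ < 2`), remainder `(r - θ)/θ`, else `r/θ`; second factor: `(r - θ)/κ < 1` (`1 - θ < 1/2 < κ`), digit 0; `r/κ < θ/κ < 2`: digit 1 iff `κ ≤ r`, remainder `(r - κ)/κ`; third: `b (rho r)`. Starting with 1: the same with `r = 1`;
`[θ/κ, b κ]` with 1: digit 1, `(θ - κ)/κ`, then `b (θ - κ)`; `[b κ]`: `b κ`. -/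
def RNB_stmt : Prop := ∀ κ θ b : ℝ, ((κ = 1 ∧ θ = 1) ∨ (κ < θ ∧ θ < 1)) → 1 / 2 < κ → 1 < b →
  (∀ r, 0 ≤ r → r < 1 → PX.run (sbl κ θ b) r = Int.fract (b * rho κ θ r)) ∧
  (κ = 1 → PX.run (sbl κ θ b) 1 = Int.fract (b * 1)) ∧
  (κ < 1 → PX.run [1 / θ, θ / κ, b * κ] 1 = Int.fract (b * (1 - θ)) ∧ PX.run [θ / κ, b * κ] 1 = Int.fract (b * (θ - κ)) ∧
    PX.run [b * κ] 1 = Int.fract (b * κ))

/-- **PGB** (medium, 90 lines; from PX RC, RNB, ORP). Eventually periodic expansions. Here `α` is the concatenation of the blocks `sbl (κ j) (θ j) (b j)`, `idx` the block starts; the remainders `r` start with 1 at position `idx j + o`, and `s` = the number of entries until the end of block `j`, `r s = fract (b j x)` with a starting value `x` at position `j`.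
Proof. By RC and RNB: `r (s + (idx (j+1+l) - idx (j+1))) = fract (b (j+l) orb b κ θ j x l)` for all `l`, by induction on `l` (`orb (l+1) = rho (fract ..)`; one block of RNB for position `j+l+1`, remainder in `[0, 1)`). By hypothesis `orb b κ θ j x` has finite range: there are `l < l'` with `p ∣ l' - l` and the same `orb` (pigeonhole on the multiples of `p`),
so `r` at the two times `n = s + idx (j+1+l) - idx (j+1)` and `n + T`, `T = idx (j+1+l') - idx (j+1+l)`, agrees; `T` is a multiple of the period of `α` (`idx (m + p) = idx m + idx p`) and `T > 0`, so `r (n' + T) = r n'` for `n' ≥ n` and the digits are periodic. -/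
def PGB_stmt : Prop := ∀ (p : ℕ) (b κ θ : ℕ → ℝ), 0 < p → (∀ n, b (n + p) = b n) → (∀ n, κ (n + p) = κ n) → (∀ n, θ (n + p) = θ n) →
  (∀ n, 1 < b n) → (∀ n, (κ n = 1 ∧ θ n = 1) ∨ (κ n < θ n ∧ θ n < 1)) → (∀ n, 1 / 2 < κ n) →
  ∀ (idx : ℕ → ℕ) (α : ℕ → ℝ), idx 0 = 0 → (∀ j, idx (j + 1) = idx j + (sbl (κ j) (θ j) (b j)).length) →
  (∀ j i, ∀ h : i < (sbl (κ j) (θ j) (b j)).length, α (idx j + i) = (sbl (κ j) (θ j) (b j))[i]) → (∀ n, α (n + idx p) = α n) →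
  ∀ (j s i : ℕ) (x : ℝ) (r : ℕ → ℝ), i + s = idx (j + 1) → IsGreedy α i r → r s = Int.fract (b j * x) → 0 ≤ x →
  (Set.range (orb b κ θ j x)).Finite →
  ∃ N T : ℕ, 0 < T ∧ ∀ n, N ≤ n → ⌊α (n + T + i) * r (n + T)⌋ = ⌊α (n + i) * r n⌋

/-- **REF** (medium-long, 150 lines; from PX CAT, PX RC, RNB, PGB). The refined base. Proof. `Bl j = sbl (κ j) (θ j) (b j)`, nonempty, periodic. CAT gives `idx, α`. Entries `> 1` (`1/θ`, `θ/κ > 1`, `b κ > 1` by `hb`), in `K`, product of a block is `b j`, so `∏_(i < idx p) α i = ∏ b j = ι β` (induction on the number of blocks, `Finset.prod_range_add` or `Finset.prod_Ico_consecutive`).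
Parry: a position `i` is `idx j + o` (CAT), `o < length (Bl j)`. Put `s = length (Bl j) - o`. By RC and RNB `r s = PX.run ((Bl j).drop o) 1 = fract (b j x)` with `x` a starting value (`St κ θ j x`), finite range by `Good j`. PGB. -/
def REF_stmt : Prop := ∀ (K : Type) [Field K] (ι : K →+* ℝ) (β : K) (p : ℕ) (b κ θ : ℕ → ℝ), Sys ι β p b κ θ → (∀ n, Good b κ θ n) →
  ∃ (idx : ℕ → ℕ) (α : ℕ → ℝ), idx 0 = 0 ∧ (∀ j, (κ j = 1 ∧ idx (j + 1) = idx j + 1 ∧ α (idx j) = b j) ∨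
      (κ j < 1 ∧ idx (j + 1) = idx j + 3 ∧ α (idx j) = 1 / θ j ∧ α (idx j + 1) = θ j / κ j ∧ α (idx j + 2) = b j * κ j)) ∧
    IsAlt (ι β) (idx p) α ∧ (∀ n, ∃ x : K, ι x = α n) ∧ ∀ i, EvPer α i

/-- **DIG** (short-medium, 70 lines). Periodic digits give a finite orbit (unsplit system). Proof. `r n = orb b 1 1 i 1 n` satisfies the recursion (`rho 1 1 (fract y) = fract y`), so `IsGreedy b i r` (`n + i = i + n`) and EvPer: digits periodic with `N, T`. `T' = T p` is also a period of the digits and of `b`. `d n = r (n + T') - r n` satisfies `d (n+1) = b (n+i) d n` for `n ≥ N`,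
`|d n| ≤ 1`; `∏` of `b` over `m p` steps is `(∏_(i<p) b i)^m → ∞`, so `d n = 0` for `n ≥ N` (otherwise unbounded). So `r (n + T') = r n` for `n ≥ N`: finite range. -/
def DIG_stmt : Prop := ∀ (p : ℕ) (b : ℕ → ℝ), 0 < p → (∀ n, b (n + p) = b n) → (∀ n, 1 < b n) → ∀ i, EvPer b i →
  Good b (fun _ => 1) (fun _ => 1) i

/-- The entries `b j` with bad `j` are replaced by three entries (or kept). -/
def Split (ε : ℝ) (p : ℕ) (b : ℕ → ℝ) (idx : ℕ → ℕ) (α : ℕ → ℝ) : Prop :=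
  idx 0 = 0 ∧ ∀ j, j < p → (idx (j + 1) = idx j + 1 ∧ α (idx j) = b j) ∨
    (¬ EvPer b j ∧ idx (j + 1) = idx j + 3 ∧ 1 < α (idx j) ∧ α (idx j) < 1 + ε ∧ 1 < α (idx j + 1) ∧
      α (idx j + 1) < 1 + ε ∧ α (idx j) * α (idx j + 1) * α (idx j + 2) = b j)

/-- The theorem for bases with entries in `ℚ(β)`. -/
def MAIN_stmt : Prop := ∀ β : ℝ, IsSalem β → ∀ (p : ℕ) (b : ℕ → ℝ), IsAlt β p b → InField β b → ∀ ε : ℝ, 0 < ε →
  ∃ (idx : ℕ → ℕ) (α : ℕ → ℝ), Split ε p b idx α ∧ IsAlt β (idx p) α ∧ InField β α ∧ IsParry (idx p) α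

/-- **FNL** (short-medium, 70 lines; from SFB CRS REF DIG). Proof. `K = ℚ(β)`. Sys for `κ = θ = 1`. CRS with `ε₁`, `1/(1 - ε₁) < 1 + ε` (`ε₁ = ε/(2 (1+ε))`, `≤ 1/2`), REF; `1/θ, θ/κ < 1/κ < 1/(1 - ε₁)`; `¬ Good b 1 1 j` gives `¬ EvPer b j` by DIG. -/
theorem FNL (hSF : SFB_stmt) (hCRS : CRS_stmt) (hREF : REF_stmt) (hDIG : DIG_stmt) : MAIN_stmt := by
  intro β hβ p b hb hK ε hε
  obtain ⟨hp, hper, h1, hprod⟩ := hb
  obtain ⟨k, σ, φ, w, hS⟩ := hSF β hβ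
  have hsys : Sys (inc β) (gen β) p b (fun _ => 1) (fun _ => 1) :=
    { hp := hp
      pb := hper
      pk := fun _ => rfl
      pt := fun _ => rfl
      b1 := h1
      pr := hprod
      bK := fun n => ⟨⟨b n, hK n⟩, rfl⟩
      kK := fun n => ⟨1, map_one _⟩
      tK := fun n => ⟨1, map_one _⟩
      ht := fun n => Or.inl ⟨rfl, rfl⟩
      hk := fun n => by norm_num
      hb := fun n m => by simpa using h1 m }
  have hε' : 0 < ε / (2 * (1 + ε)) := by positivity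
  obtain ⟨κ, θ, hs, hbad, hgood⟩ := hCRS _ _ _ _ _ _ _ hS p b hsys (ε / (2 * (1 + ε))) hε'
  obtain ⟨idx, α, h0, hblk, halt, hin, hev⟩ := hREF _ _ _ p b κ θ hs hgood
  refine ⟨idx, α, ⟨h0, fun j hj => ?_⟩, halt, fun n => ?_, fun i _ => hev i⟩
  · rcases hblk j with ⟨_, h2, h3⟩ | ⟨hlt, h2, h3, h4, h5⟩
    · exact Or.inl ⟨h2, h3⟩
    · right
      obtain ⟨hk1, hk2⟩ := hbad j hlt
      have hht := hs.ht j
      have hκθ : κ j < θ j ∧ θ j < 1 := by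
        rcases hht with h | h
        · exact absurd h.1 hlt.ne
        · exact h
      have hκ0 : 0 < κ j := by linarith [hs.hk j]
      have hθ0 : 0 < θ j := by linarith [hκθ.1]
      have hmain : 1 < κ j * (1 + ε) := by
        have h6 : ε / (2 * (1 + ε)) * (1 + ε) = ε / 2 := by
          field_simp
        have h7 : (1 - ε / (2 * (1 + ε))) * (1 + ε) = 1 + ε / 2 := by
          rw [sub_mul, h6]; ring
        have h8 : (1 - ε / (2 * (1 + ε))) * (1 + ε) < κ j * (1 + ε) :=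
          mul_lt_mul_of_pos_right hk1 (by linarith)
        linarith
      refine ⟨fun h => hk2 (hDIG p b hp hper h1 j h), h2, ?_, ?_, ?_, ?_, ?_⟩
      · rw [h3, lt_div_iff₀ hθ0]; linarith [hκθ.2]
      · rw [h3, div_lt_iff₀ hθ0]
        nlinarith [hκθ.1]
      · rw [h4, lt_div_iff₀ hκ0]; linarith [hκθ.1]
      · rw [h4, div_lt_iff₀ hκ0]
        linarith [hκθ.2]
      · rw [h3, h4, h5]
        field_simp
  · obtain ⟨x, hx⟩ := hin n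
    rw [← hx]
    exact x.2

end Pool.Agent.TS
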